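import Mathlib
import Pool.Agent.Helper26.CSets

/-!
# Countably generated sigma-algebras containing many analytic sets, and the bounding number

`LeB κ` says that `κ ≤ 𝔟`, and `CSet` are the C-sets of Selivanovskii (closure of the open sets
under complements, countable unions and the Suslin operation); both are defined in
`Pool/Agent/Helper26/CSets.lean`.
-/

open Set Cardinal Filter MeasureTheory

namespace Pool.Agent.Results.MP_4137ca_lc.BoundingNumber

open Pool.Agent.Helper26.CSets

/-- Let `κ` be an infinite cardinal with `κ ≤ 𝔟`. For every set `E` of at most `κ` points of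
`[0,1]` and every family `𝒜` of at most `κ` subsets of `[0,1]` that are analytic, or more
generally C-sets, some countably generated sigma-algebra of subsets of `E` contains the traces on
`E` of all members of `𝒜`. (If `𝔟 = 𝔠` one may take `κ = 𝔠`, `E = [0,1]` and `𝒜` the family of
all analytic sets, or of all C-sets.) -/
theorem result (κ : Cardinal.{0}) (hinf : ℵ₀ ≤ κ) (hκ : LeB κ) (E : Set unitInterval)
    (hE : #E ≤ κ) (𝒜 : Set (Set unitInterval)) (h𝒜 : #𝒜 ≤ κ)
    (hA : ∀ B ∈ 𝒜, AnalyticSet B ∨ CSet B) :
    ∃ A : ℕ → Set E, ∀ B ∈ 𝒜,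
      MeasurableSet[MeasurableSpace.generateFrom (range A)] ((↑) ⁻¹' B : Set E) :=
  main hκ hinf E hE 𝒜 h𝒜 fun B hB => (hA B hB).elim analytic_cset id

end Pool.Agent.Results.MP_4137ca_lc.BoundingNumber
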