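import Pool.Agent.Helper59.AN.Main2
import Pool.Agent.Helper59.AN.Rn
import Pool.Agent.Helper59.AN.SEP
import Pool.Agent.Helper49.AN.RNK
import Pool.Agent.Helper56.AN.X12
import Pool.Agent.Helper89.AN.EQ
import Pool.Agent.Helper96.AN.FNC
import Pool.Agent.Helper77.AN.CCC
import Pool.Agent.Helper26.AN.Key
import Pool.Agent.Helper25.AN.Low
import Pool.Agent.Helper32.AN.COMB2
import Pool.Agent.Helper33.AN.RQ
import Pool.Agent.Helper8.AN.EXT
import Pool.Agent.Helper67.AN.INO
import Pool.Agent.Helper90.AN.Ana
import Pool.Agent.Helper99.AN.Cod
import Pool.Agent.Helper5.AN.VAL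
import Pool.Agent.Helper6.AN.CSUP
import Pool.Agent.Helper3.AN.Sig
import Pool.Agent.Helper69.AN.SYA
import Pool.Agent.Helper85.AN.SYS
import Pool.Agent.Helper56.AN.SYC
import Pool.Agent.Helper49.AN.CARD
import Pool.Agent.Helper65.AN.COV
import Pool.Agent.Helper33.AN.PHC
import Pool.Agent.Helper94.AN.ORD

/-!
# MP_4137ca_lc: no sigma-algebra with fewer than continuum many generators contains all analytic
sets, consistently

In some model of ZFC, for every set `U` into which the family of all subsets of `ω` does not inject
and every family `(A u)`, `u ∈ U`, of sets of subsets of `ω`, some analytic set of subsets of `ω` is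
not in the sigma-algebra generated by the sets `A u`. In particular (`U = ω`) no countably generated
sigma-algebra contains all analytic sets.

The model: for every index `i` in a large set `I` and every ordinal `x < ω₁` (an element of `X`) a
tree of rank at least `x`, coded by a real `r x`, is given. The conditions are the finite sets of
vertices without edges in a graph on `Vx I X`; the generic set of vertices contains the vertex
`g i x s` exactly if it contains none of its neighbours (for `s` not terminal: `g i x (n :: s)`, for
`s` terminal: the vertices `a i s σ`, `σ` a cylinder containing `r x`). So the vertices `a i s σ` are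
the code of an analytic set `B i` of pairs, and `g i x []` says whether `r x` is in it. Complements
of truth values of rank at most `b` have rank at most `b'` for all `b' > b` (packet KEY), hence all
functions in the sigma-algebra generated by functions of low rank have rank less than `ω₁`, outside a
countable set of points, but the generic function of a fresh index has not (packet SEP).
-/

namespace Pool.Agent.Results.MP_4137ca_lc.FewGenerators

open AN

theorem result : ∃ (N : Type 1) (E : N → N → Prop),
    Pool.Agent.Helper97.Ku.IsZFC N E ∧ AN.PhiC E := by
  have rnk : G_RNK := PkRNK.rnk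
  have x12 : G_X12 := PkX12.x12
  have eqq : G_EQ := PkEQ.eq x12
  have fnc : G_FNC := PkFNC.fnc
  have ccc : G_CCC := PkCCC.ccc fnc
  have key : G_KEY := PkKEY.key x12
  have low : G_LOW := PkLOW.low ccc
  have comb2 : G_COMB2 := PkCOMB2.comb2 low key PkSEP2.sep
  have rn : G_RN := PkRN.rn
  have rq : G_RQ := PkRQ.rq rn
  have ext : G_EXT := PkEXT.ext
  have ino : G_INO := PkINO.ino rn
  have ana : G_ANA := PkANA.ana rn rq ext ino
  have val : G_VAL := PkVAL.val PkCOD.cod
  have csup : G_CSUP := PkCSUP.csup
  have sig : G_SIG := PkSIG.sig rq rn csup
  have sya : G_SYA := PkSYA.sya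
  have sys : G_SYS := PkSYS.sys
  have syc : G_SYC := PkSYC.syc sya sys
  have card : G_CARD := PkCARD.card
  have cov : G_COV := PkCOV.cov rn
  have phc : G_PHC := PkPHC.phc comb2 cov card val eqq ana sig rq rn ccc ext
  exact AN.main2 PkORD.ord rnk syc phc

end Pool.Agent.Results.MP_4137ca_lc.FewGenerators
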